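import Mathlib

/-!
# Lattice Yang-Mills theory: the first non Gaussian order

Wilson's lattice gauge theory in dimension `d ≥ 3` with gauge group an arbitrary closed subgroup `G`
of `U(N)` at the inverse coupling `β`, on the periodic lattices `(ℤ/l)^d` with `l ≥ β` even and in all
their infinite volume limits. To leading order the field strength is the Gaussian lattice Maxwell
field, for which all gauge invariant local fields of odd degree, and all effects of the non abelian
interaction, vanish. Here the next order is computed: for the gauge invariant local fields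
`Re tr (D^J F_p F_q F_r)(0)` of degree three with at least three covariant derivatives,
`√β ⟨Re tr (D^J F_p F_q F_r)⟩` converges, uniformly in the volume, to the sum of the squares of the
structure constants times an explicit absolutely convergent lattice sum, the three gluon term. It does
not vanish, for arbitrarily many derivatives, when the Lie algebra is not abelian.
-/

open MeasureTheory Matrix Filter
open scoped Matrix.Norms.Frobenius Topology

namespace Pool.Agent.Y16.Gluon


set_option linter.unusedSectionVars false

noncomputable section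

/-- Complex `N × N` matrices. -/
abbrev Mt (N : ℕ) := Matrix (Fin N) (Fin N) ℂ

/-- The unitary group `U(N)`. -/
abbrev UU (N : ℕ) := Matrix.unitaryGroup (Fin N) ℂ

/-- The matrix of an element of a subgroup of `U(N)`. -/
def mt {N : ℕ} {G : Subgroup (UU N)} (g : G) : Mt N := ((g : UU N) : Mt N)

/-- An orthonormal basis `X` of the Lie algebra of `G`, that is of the real space of all matrices `Y`
with `exp (t Y) ∈ G` for all real `t`, with the scalar product `Re tr (Y* Z)`; `ex a t` is the
element `exp (t X_a)` of `G`. -/
structure LieBasis {N : ℕ} (G : Subgroup (UU N)) (n : ℕ) where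
  X : Fin n → Mt N
  ex : Fin n → ℝ → G
  ex_eq : ∀ a t, mt (ex a t) = NormedSpace.exp (t • X a)
  orth : ∀ a b, (trace ((X a)ᴴ * X b)).re = if a = b then 1 else 0
  full : ∀ Y : Mt N, (∀ t : ℝ, ∃ g : G, mt g = NormedSpace.exp (t • Y)) →
    Y ∈ Submodule.span ℝ (Set.range X)

/-- Links of the periodic lattice `(ℤ/l)^d`: base point and direction. -/
abbrev Link (d l : ℕ) := (Fin d → ZMod l) × Fin d

/-- Links of the lattice `ℤ^d`: base point and direction. -/
abbrev LinkZ (d : ℕ) := (Fin d → ℤ) × Fin d

section

variable {N n d l : ℕ} {G : Subgroup (UU N)}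

/-- The product of the link variables around the plaquette at `x` in the directions `i`, `j`. -/
def plaq (U : Link d l → G) (x : Fin d → ZMod l) (i j : Fin d) : G :=
  U (x, i) * U (x + Pi.single i 1, j) * (U (x + Pi.single j 1, i))⁻¹ * (U (x, j))⁻¹

/-- The Wilson action `∑_p Re tr (1 - U_p)`, the sum over the plaquettes. -/
def action [NeZero l] (U : Link d l → G) : ℝ :=
  ∑ x : Fin d → ZMod l, ∑ i : Fin d, ∑ j : Fin d,
    if i < j then (trace (1 - mt (plaq U x i j))).re else 0

/-- The periodic extension of a configuration. -/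
def per (U : Link d l → G) : LinkZ d → G := fun e => U (fun i => (e.1 i : ZMod l), e.2)

/-- The expectation of `F` in the lattice Yang-Mills theory on `(ℤ/l)^d`, `μ` being the Haar
measure. -/
def expect (l : ℕ) [NeZero l] [MeasurableSpace G] (μ : Measure G) (β : ℝ)
    (F : (LinkZ d → G) → ℝ) : ℝ :=
  (∫ U : Link d l → G, F (per U) * Real.exp (-(β * action U)) ∂(Measure.pi fun _ => μ)) /
    ∫ U : Link d l → G, Real.exp (-(β * action U)) ∂(Measure.pi fun _ => μ)

/-- `ν` is an infinite volume limit (weak limit along a subsequence) of the theories on the tori of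
even side at inverse coupling `β`. -/
structure IsInfVol [MeasurableSpace G] (μ : Measure G) (β : ℝ)
    (ν : Measure (LinkZ d → G)) : Prop where
  prob : IsProbabilityMeasure ν
  lim : ∃ s : ℕ → ℕ, Tendsto s atTop atTop ∧ ∀ F : (LinkZ d → G) → ℝ, Continuous F →
    Tendsto (fun j => expect (2 * (s j + 1)) μ β F) atTop (𝓝 (∫ V, F V ∂ν))

/-- The plaquette variable of a configuration on `ℤ^d`. -/
def plaqZ (V : LinkZ d → G) (x : Fin d → ℤ) (i j : Fin d) : G :=
  V (x, i) * V (x + Pi.single i 1, j) * (V (x + Pi.single j 1, i))⁻¹ * (V (x, j))⁻¹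

/-- Gauge transformations. -/
def gauge (γ : (Fin d → ℤ) → G) (V : LinkZ d → G) : LinkZ d → G :=
  fun e => γ e.1 * V e * (γ (e.1 + Pi.single e.2 1))⁻¹

/-- The lattice field strength `F_p(x)`, `p = (j, k)`: the orthogonal projection of `√β U_{jk}(x)` to
the Lie algebra. -/
def strength (B : LieBasis G n) (β : ℝ) (V : LinkZ d → G) (p : Fin d × Fin d) (x : Fin d → ℤ) :
    Mt N :=
  ∑ a, (Real.sqrt β * (trace ((B.X a)ᴴ * mt (plaqZ V x p.1 p.2))).re) • B.X a

/-- The iterated covariant lattice derivatives in the directions of the list,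
`(D_i Φ)(x) = V(x,i) Φ(x + e_i) V(x,i)* - Φ(x)`. -/
def covs (V : LinkZ d → G) : List (Fin d) → ((Fin d → ℤ) → Mt N) → (Fin d → ℤ) → Mt N
  | [], Φ => Φ
  | i :: J, Φ => fun x =>
      mt (V (x, i)) * covs V J Φ (x + Pi.single i 1) * (mt (V (x, i)))ᴴ - covs V J Φ x

/-- The gauge invariant local field `Re tr (D^J F_p F_q F_r)(x)`. -/
def cubic (B : LieBasis G n) (β : ℝ) (J : List (Fin d)) (p q r : Fin d × Fin d) (x : Fin d → ℤ)
    (V : LinkZ d → G) : ℝ :=
  (trace (covs V J (strength B β V p) x * strength B β V q x * strength B β V r x)).re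

/-- The sum of the squares of the structure constants, `∑ (Re tr (X_c* X_a X_b))²`; note that
`[X_a, X_b] = 2 ∑_c Re tr (X_c* X_a X_b) X_c`. -/
def structureSum (B : LieBasis G n) : ℝ :=
  ∑ c, ∑ a, ∑ b, (trace ((B.X c)ᴴ * (B.X a * B.X b))).re ^ 2

end

section

variable {d : ℕ}

/-! ### The lattice Maxwell field -/

/-- The transition probabilities of the lazy random walk on `ℤ^d`. -/
def walk (d : ℕ) : ℕ → (Fin d → ℤ) → ℝ
  | 0, z => if z = 0 then 1 else 0
  | k + 1, z => 1 / 2 * walk d k z + 1 / (4 * d : ℝ) *
      ∑ i, (walk d k (z + Pi.single i 1) + walk d k (z - Pi.single i 1))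

/-- The Green function of the lattice Laplacian on `ℤ^d`. -/
def green (d : ℕ) (z : Fin d → ℤ) : ℝ := 1 / (4 * d : ℝ) * ∑' k, walk d k z

/-- The mixed second difference of the Green function, forward in the direction `j`, backward in the
direction `l`. -/
def mixed (j l : Fin d) (z : Fin d → ℤ) : ℝ :=
  green d (z + Pi.single j 1) - green d z - green d (z + Pi.single j 1 - Pi.single l 1) +
    green d (z - Pi.single l 1)

/-- The two-point function `⟨F_p(z) F_{p'}(0)⟩` of the lattice Maxwell field. -/
def latMaxwell (p p' : Fin d × Fin d) (z : Fin d → ℤ) : ℝ :=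
  -(if p.2 = p'.2 then mixed p.1 p'.1 z else 0) + (if p.2 = p'.1 then mixed p.1 p'.2 z else 0) +
    (if p.1 = p'.2 then mixed p.2 p'.1 z else 0) - (if p.1 = p'.1 then mixed p.2 p'.2 z else 0)

/-- Iterated differences `g (z - e_i) - g z` in the directions of the list. -/
def bdiff : List (Fin d) → ((Fin d → ℤ) → ℝ) → (Fin d → ℤ) → ℝ
  | [], g => g
  | i :: J, g => fun z => bdiff J g (z - Pi.single i 1) - bdiff J g z

/-! ### The three gluon term -/

/-- The point `(x_0, …, x_{j-1}, s, 0, …, 0)`. -/
def cutoff (x : Fin d → ℤ) (j : Fin d) (s : ℤ) : Fin d → ℤ :=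
  fun k => if k < j then x k else if k = j then s else 0

/-- The covariance `⟨A_i(x) F_q(0)⟩`, where `A` is the potential of the lattice Maxwell field which
vanishes on all links `(x, i)` with `x_k = 0` for all `k > i`:
`A_i(x) = ∑_{j > i} ∑_{0 ≤ s < x_j} F_{ji}(x_0, …, x_{j-1}, s, 0, …, 0)` for `x ≥ 0`. -/
def potential (i : Fin d) (x : Fin d → ℤ) (q : Fin d × Fin d) : ℝ :=
  ∑ j, if i < j then (∑ s ∈ Finset.Ico 0 (x j), latMaxwell (j, i) q (cutoff x j s)) -
    ∑ s ∈ Finset.Ico (x j) 0, latMaxwell (j, i) q (cutoff x j s) else 0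

/-- The coefficient of the commutator in the pairing of `[A, B]` with `[F_q(0), F_r(0)]`, in terms of
the covariances `a`, `b` of `A`, `B` with the field strength at the origin. -/
def wedge (a b : Fin d × Fin d → ℝ) (q r : Fin d × Fin d) : ℝ := a q * b r - a r * b q

/-- The second order part `(A ∧ A)_{jk}(x)` of the field strength, paired with `[F_q(0), F_r(0)]`:
the sum over the pairs of links of the plaquette. -/
def quad (q r : Fin d × Fin d) (j k : Fin d) (x : Fin d → ℤ) : ℝ :=
  wedge (potential j x) (potential k (x + Pi.single j 1)) q r -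
  wedge (potential j x) (potential j (x + Pi.single k 1)) q r -
  wedge (potential j x) (potential k x) q r -
  wedge (potential k (x + Pi.single j 1)) (potential j (x + Pi.single k 1)) q r -
  wedge (potential k (x + Pi.single j 1)) (potential k x) q r +
  wedge (potential j (x + Pi.single k 1)) (potential k x) q r

/-- How often the link `(x, k)` occurs in the boundary of the plaquette at the origin in the plane
`q`. -/
def onPlaq (q : Fin d × Fin d) (x : Fin d → ℤ) (k : Fin d) : ℝ :=
  ((if x = 0 ∧ k = q.1 then 1 else 0) + (if x = Pi.single q.1 1 ∧ k = q.2 then 1 else 0)) +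
    ((if x = Pi.single q.2 1 ∧ k = q.1 then 1 else 0) + (if x = 0 ∧ k = q.2 then 1 else 0))

/-- The divergence of the field strength to second order, paired with `[F_q(0), F_r(0)]`: the term
`[A, F]` of the lattice Yang-Mills equation and the contact term. -/
def current (q r : Fin d × Fin d) (k : Fin d) (x : Fin d → ℤ) : ℝ :=
  ∑ j, 2 * wedge (potential j (x - Pi.single j 1))
    (fun q => latMaxwell (k, j) q (x - Pi.single j 1)) q r -
  (onPlaq r x k - onPlaq q x k) * latMaxwell q r 0

/-- The differential of `quad`. -/
def dquad (q r : Fin d × Fin d) (i j k : Fin d) (x : Fin d → ℤ) : ℝ :=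
  (quad q r j k (x + Pi.single i 1) - quad q r j k x) +
  (quad q r k i (x + Pi.single j 1) - quad q r k i x) +
  (quad q r i j (x + Pi.single k 1) - quad q r i j x)

/-- The Laplacian of the three-point function in its first argument. -/
def source (q r : Fin d × Fin d) (j k : Fin d) (x : Fin d → ℤ) : ℝ :=
  ∑ i, (dquad q r i j k x - dquad q r i j k (x - Pi.single i 1)) +
  (current q r k (x + Pi.single j 1) - current q r k x) -
  (current q r j (x + Pi.single k 1) - current q r j x)

/-- The three gluon term with `t` steps of the random walk. -/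
def threeGluonStep (J : List (Fin d)) (p q r : Fin d × Fin d) (t : ℕ) : ℝ :=
  ∑' z, bdiff J (walk d t) z * source q r p.1 p.2 z

/-- The three gluon term: the solution of the lattice Laplace equation with right hand side
`source`. -/
def threeGluon (J : List (Fin d)) (p q r : Fin d × Fin d) : ℝ :=
  1 / (4 * d : ℝ) * ∑' t, threeGluonStep J p q r t

end

end

end Pool.Agent.Y16.Gluon
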