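import Mathlib
import Pool.Agent.H906R3.YM.Conc
import Pool.Agent.W793.YM.GLim
import Pool.Agent.W793.SCH.All
import Pool.Agent.Y274.YMTan
import Pool.Agent.Y16.YM.Sumb
import Pool.Agent.Y16.Gluon.Def

/-!
# The first non Gaussian order: proof
-/

open MeasureTheory Matrix Filter
open scoped Matrix.Norms.Frobenius Topology

namespace Pool.Agent.Y16.Gluon

set_option linter.unusedSectionVars false

noncomputable section

open Pool.Agent Pool.Agent.H906R3 Pool.Agent.W793

variable {N n d l : ℕ} {G : Subgroup (UU N)}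

/-- The same data in the form used by the helper files. -/
def fm (B : LieBasis G n) : YM.Frame G n where
  X := B.X
  ex := B.ex
  ex_eq := B.ex_eq
  orth := B.orth
  full := B.full

/-- The abstract data. -/
def ld (B : LieBasis G n) : YM.LD G N n := (fm B).toLD

lemma action_eq [NeZero l] (B : LieBasis G n) (U : Link d l → G) :
    action U = YM.act (ld B) U := rfl

/-- A Haar probability measure is invariant under right multiplications. -/
lemma right_inv {H : Type*} [Group H] [TopologicalSpace H] [IsTopologicalGroup H]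
    [CompactSpace H] [MeasurableSpace H] [BorelSpace H] (μ : Measure H)
    [IsProbabilityMeasure μ] [μ.IsHaarMeasure] : μ.IsMulRightInvariant := by
  refine ⟨fun g => ?_⟩
  have h1 : IsProbabilityMeasure (Measure.map (fun x => x * g) μ) :=
    Measure.isProbabilityMeasure_map (measurable_mul_const g).aemeasurable
  exact Measure.isHaarMeasure_eq_of_isProbabilityMeasure _ _

/-- A Haar probability measure is invariant under the inversion. -/
lemma inv_inv' {H : Type*} [Group H] [TopologicalSpace H] [IsTopologicalGroup H]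
    [CompactSpace H] [MeasurableSpace H] [BorelSpace H] (μ : Measure H)
    [IsProbabilityMeasure μ] [μ.IsHaarMeasure] : μ.IsInvInvariant := by
  have hr := right_inv μ
  refine ⟨?_⟩
  have h1 : IsProbabilityMeasure μ.inv :=
    Measure.isProbabilityMeasure_map measurable_inv.aemeasurable
  have h2 : μ.inv.IsMulLeftInvariant := inferInstance
  have h3 : μ.inv.IsHaarMeasure :=
    Measure.isHaarMeasure_of_isCompact_nonempty_interior μ.inv Set.univ isCompact_univ
      (by simp) (by simp) (by simp)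
  exact Measure.isHaarMeasure_eq_of_isProbabilityMeasure _ _

section bridge

variable [CompactSpace G] [SecondCountableTopology G] [MeasurableSpace G] [BorelSpace G]
  (μ : Measure G) [IsProbabilityMeasure μ] [μ.IsHaarMeasure] (B : LieBasis G n)

lemma expect_eq [NeZero l] (β : ℝ) (F : (LinkZ d → G) → ℝ) : expect l μ β F =
    YM.EX μ (ld B) β (fun U : YM.Ed d l → G => F (YM.lf U)) := by
  unfold expect YM.EX YM.Zt
  simp only [one_mul]
  rfl

include B in
lemma action_cont [NeZero l] : Continuous (action : (Link d l → G) → ℝ) :=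
  YM.act_cont (L := ld B)

include B in
/-- existence of infinite volume limits -/
lemma exists_infVol (β : ℝ) : ∃ ν : Measure (LinkZ d → G), IsInfVol μ β ν := by
  have hP : ∀ j : ℕ, ∃ P : ProbabilityMeasure (LinkZ d → G),
      ∀ F : (LinkZ d → G) → ℝ, Continuous F →
        ∫ V, F V ∂(P : Measure (LinkZ d → G)) = expect (2 * (j + 1)) μ β F := by
    intro j
    have hper : Continuous (per : (Link d (2 * (j + 1)) → G) → LinkZ d → G) :=
      continuous_pi fun e => continuous_apply _
    have hexp : Continuous fun U : Link d (2 * (j + 1)) → G =>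
        Real.exp (-(β * action U)) :=
      Real.continuous_exp.comp (continuous_const.mul (action_cont B)).neg
    have hint : Integrable (fun U : Link d (2 * (j + 1)) → G =>
        Real.exp (-(β * action U))) (Measure.pi fun _ => μ) :=
      hexp.integrable_of_hasCompactSupport (HasCompactSupport.of_compactSpace _)
    have h1 := isProbabilityMeasure_tilted (f := fun U : Link d (2 * (j + 1)) → G =>
      -(β * action U)) hint
    refine ⟨⟨((Measure.pi fun _ => μ).tilted fun U : Link d (2 * (j + 1)) → G =>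
      -(β * action U)).map per, Measure.isProbabilityMeasure_map hper.aemeasurable⟩,
      fun F hF => ?_⟩
    show ∫ V, F V ∂(((Measure.pi fun _ => μ).tilted fun U : Link d (2 * (j + 1)) → G =>
      -(β * action U)).map per) = _
    rw [integral_map hper.aemeasurable hF.aestronglyMeasurable, integral_tilted]
    unfold expect
    rw [← integral_div]
    refine integral_congr_ae (Filter.Eventually.of_forall fun U => ?_)
    simp only [smul_eq_mul]
    ring
  choose P hP using hP
  obtain ⟨ν, s, hs, hlim⟩ := CompactSpace.tendsto_subseq P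
  refine ⟨ν, ⟨inferInstance, s, hs.tendsto_atTop, fun F hF => ?_⟩⟩
  have h1 := (ProbabilityMeasure.tendsto_iff_forall_integral_tendsto.1 hlim)
    (BoundedContinuousFunction.mkOfCompact ⟨F, hF⟩)
  simp only [Function.comp_apply, BoundedContinuousFunction.mkOfCompact_apply,
    ContinuousMap.coe_mk] at h1
  simpa only [hP _ F hF] using h1

end bridge

/-! ### Comparison of the definitions -/

section kernels

lemma walk_eq (t : ℕ) : walk d t = SCH.pk d t := by
  induction t with
  | zero => funext z; rfl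
  | succ t ih =>
    funext z
    show 1 / 2 * walk d t z + 1 / (4 * d : ℝ) *
        ∑ i, (walk d t (z + Pi.single i 1) + walk d t (z - Pi.single i 1)) = _
    rw [ih]; rfl

lemma green_eq (z : Fin d → ℤ) : green d z = SCH.green d z := by
  unfold green SCH.green
  simp only [walk_eq]

lemma bdiff_eq (J : List (Fin d)) (g : (Fin d → ℤ) → ℝ) : bdiff J g = TH940.YM.dB J g := by
  induction J with
  | nil => rfl
  | cons i J ih =>
    funext z
    show bdiff J g (z - Pi.single i 1) - bdiff J g z = _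
    rw [ih]; rfl

lemma lat_eq (p q : Fin d × Fin d) (z : Fin d → ℤ) : latMaxwell p q z = Y16.YM.lm p q z := by
  rw [Y16.YM.lm_val]
  unfold latMaxwell mixed SCH.DD
  simp only [green_eq]

lemma potential_eq (i : Fin d) (x : Fin d → ℤ) (q : Fin d × Fin d) :
    potential i x q = Y16.YM.pl i x q := by
  unfold potential Y16.YM.pl Y16.YM.pot
  simp only [lat_eq]
  rfl

lemma quad_eq (q r : Fin d × Fin d) (j k : Fin d) (x : Fin d → ℤ) :
    quad q r j k x = Y16.YM.omF q r j k x := by
  unfold quad Y16.YM.omF Y16.YM.omL Y16.YM.w4t wedge Y16.YM.dt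
  simp only [potential_eq]

lemma current_eq (q r : Fin d × Fin d) (k : Fin d) (x : Fin d → ℤ) :
    current q r k x = Y16.YM.siF q r k x := by
  unfold current Y16.YM.siF Y16.YM.rhL Y16.YM.kaL wedge Y16.YM.dt onPlaq Y16.YM.sp Y16.YM.sm
  simp only [potential_eq, lat_eq]

lemma source_eq (q r : Fin d × Fin d) (j k : Fin d) (x : Fin d → ℤ) :
    source q r j k x = Y16.YM.Lf (Y16.YM.omF q r) (Y16.YM.siF q r) j k x := by
  unfold source dquad Y16.YM.Lf Y16.YM.ns Y16.YM.dT Y16.YM.nb
  simp only [quad_eq, current_eq]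

lemma step_eq (J : List (Fin d)) (p q r : Fin d × Fin d) (t : ℕ) : threeGluonStep J p q r t =
    Y16.YM.WJ J t (Y16.YM.Lf (Y16.YM.omF q r) (Y16.YM.siF q r) p.1 p.2) := by
  unfold threeGluonStep Y16.YM.WJ Y16.YM.pa
  simp only [source_eq, walk_eq, bdiff_eq]

lemma three_eq (J : List (Fin d)) (p q r : Fin d × Fin d) :
    threeGluon J p q r = -Y16.YM.three J p q r := by
  unfold threeGluon Y16.YM.three
  simp only [step_eq]
  rw [neg_neg]

lemma structure_eq (B : LieBasis G n) : structureSum B = Y16.YM.cG (ld B) := rfl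

end kernels

section coordinates

variable [CompactSpace G] [SecondCountableTopology G] [MeasurableSpace G] [BorelSpace G]
  (B : LieBasis G n)

/-- The configuration as a function of the base point and the direction. -/
def cf (V : LinkZ d → G) : Y16.YM.Zp d → Fin d → G := fun x i => V (x, i)

lemma covs_eq (β : ℝ) (V : LinkZ d → G) (p : Fin d × Fin d) (J : List (Fin d)) (x : Fin d → ℤ) :
    covs V J (strength B β V p) x =
      ∑ a, (Real.sqrt β * Y16.YM.cv (ld B) (cf V) p J x a) • B.X a := by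
  induction J generalizing x with
  | nil => rfl
  | cons i J ih =>
    have h1 : ∀ A : Fin n → ℝ, mt (V (x, i)) * (∑ a, A a • B.X a) * (mt (V (x, i)))ᴴ =
        ∑ a, Y16.YM.rot (ld B) (V (x, i)) A a • B.X a := fun A =>
      (Y16.YM.sum_rot (L := ld B) (V (x, i)) A).symm
    show mt (V (x, i)) * covs V J (strength B β V p) (x + Pi.single i 1) * (mt (V (x, i)))ᴴ -
      covs V J (strength B β V p) x = ∑ a, (Real.sqrt β *
        (Y16.YM.rot (ld B) (V (x, i)) (Y16.YM.cv (ld B) (cf V) p J (x + Pi.single i 1)) a -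
          Y16.YM.cv (ld B) (cf V) p J x a)) • B.X a
    rw [ih, ih, h1]
    simp only [mul_sub, sub_smul, Finset.sum_sub_distrib]
    congr 1
    refine Finset.sum_congr rfl fun a _ => ?_
    congr 1
    unfold Y16.YM.rot
    rw [Finset.mul_sum]
    exact Finset.sum_congr rfl fun b _ => by ring

lemma tri_eq (A C D : Fin n → ℝ) : (trace ((∑ a, A a • B.X a) * (∑ a, C a • B.X a) *
    ∑ a, D a • B.X a)).re = -∑ a, A a * Y16.YM.qd (ld B) C D a := by
  have h1 : ∀ a, (trace (B.X a * ((∑ a, C a • B.X a) * ∑ a, D a • B.X a))).re =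
      -Y16.YM.qd (ld B) C D a := by
    intro a
    have h2 := Y16.YM.ip_sum2 (L := ld B) C D a
    rw [← h2, YM.ip_apply]
    have h3 : ((ld B).X a)ᴴ = -B.X a := (fm B).skewX a
    rw [h3, neg_mul, trace_neg, Complex.neg_re, neg_neg]
    rfl
  rw [Matrix.mul_assoc, Finset.sum_mul, trace_sum, Complex.re_sum, ← Finset.sum_neg_distrib]
  refine Finset.sum_congr rfl fun a _ => ?_
  rw [smul_mul_assoc, trace_smul, Complex.smul_re, h1, smul_eq_mul]
  ring

lemma cubic_eq (β : ℝ) (J : List (Fin d)) (p q r : Fin d × Fin d) (x : Fin d → ℤ)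
    (V : LinkZ d → G) : cubic B β J p q r x V = -(Real.sqrt β ^ 3 *
      ∑ a, Y16.YM.cv (ld B) (cf V) p J x a * Y16.YM.qd (ld B)
        (Y16.YM.cv (ld B) (cf V) q [] x) (Y16.YM.cv (ld B) (cf V) r [] x) a) := by
  have e : ∀ q : Fin d × Fin d, strength B β V q x =
      ∑ a, (Real.sqrt β * Y16.YM.cv (ld B) (cf V) q [] x a) • B.X a := fun q =>
    covs_eq B β V q [] x
  unfold cubic
  rw [covs_eq, e, e, tri_eq, Finset.mul_sum]
  congr 1
  refine Finset.sum_congr rfl fun a _ => ?_
  have h1 := Y16.YM.qd_smul_left (L := ld B) (Real.sqrt β) (Y16.YM.cv (ld B) (cf V) q [] x)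
    (fun a => Real.sqrt β * Y16.YM.cv (ld B) (cf V) r [] x a) a
  have h2 := Y16.YM.qd_smul_right (L := ld B) (Real.sqrt β) (Y16.YM.cv (ld B) (cf V) q [] x)
    (Y16.YM.cv (ld B) (cf V) r [] x) a
  rw [h1, h2]
  ring

lemma cubic_zero (β : ℝ) (J : List (Fin d)) (p q r : Fin d × Fin d)
    (V : LinkZ d → G) : cubic B β J p q r 0 V =
      -(Real.sqrt β ^ 3 * Y16.YM.ob (ld B) J p q r (cf V)) := by
  rw [cubic_eq B β]
  have e : ∀ q : Fin d × Fin d, Y16.YM.cv (ld B) (cf V) q [] 0 = Y16.YM.F0 (ld B) q (cf V) := by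
    intro q
    funext a
    rw [Y16.YM.cv_zero (cf V) q [] List.Pairwise.nil]
    rfl
  unfold Y16.YM.ob Y16.YM.Ph
  rw [e, e]

lemma gauge_inv (β : ℝ) (J : List (Fin d)) (p q r : Fin d × Fin d) (x : Fin d → ℤ)
    (γ : (Fin d → ℤ) → G) (V : LinkZ d → G) :
    cubic B β J p q r x (gauge γ V) = cubic B β J p q r x V := by
  rw [cubic_eq B β, cubic_eq B β]
  have h : ∀ (p : Fin d × Fin d) (J : List (Fin d)), Y16.YM.cv (ld B) (cf (gauge γ V)) p J x =
      Y16.YM.rot (ld B) (γ x) (Y16.YM.cv (ld B) (cf V) p J x) := fun p J =>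
    Y16.YM.cv_gauge γ (cf V) p J x
  rw [h, h, h]
  have h2 : Y16.YM.qd (ld B) (Y16.YM.rot (ld B) (γ x) (Y16.YM.cv (ld B) (cf V) q [] x))
      (Y16.YM.rot (ld B) (γ x) (Y16.YM.cv (ld B) (cf V) r [] x)) =
      Y16.YM.rot (ld B) (γ x) (Y16.YM.qd (ld B) (Y16.YM.cv (ld B) (cf V) q [] x)
        (Y16.YM.cv (ld B) (cf V) r [] x)) := funext fun a => Y16.YM.qd_rot _ _ _ a
  rw [h2, Y16.YM.rot_dot]

lemma cv_cont (p : Fin d × Fin d) (J : List (Fin d)) (x : Fin d → ℤ) (a : Fin n) :
    Continuous fun V : LinkZ d → G => Y16.YM.cv (ld B) (cf V) p J x a := by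
  have h : ∀ e : LinkZ d, Continuous fun V : LinkZ d → G => V e := fun e => continuous_apply e
  induction J generalizing x a with
  | nil =>
    exact (Y16.YM.cc_cont (L := ld B) a).comp ((((h _).mul (h _)).mul (h _).inv).mul (h _).inv)
  | cons i J ih =>
    exact (continuous_finsetSum _ fun b _ =>
      ((YM.adm_cont (L := ld B) b a).comp (h (x, i))).mul (ih _ _)).sub (ih _ _)

lemma cubic_cont (β : ℝ) (J : List (Fin d)) (p q r : Fin d × Fin d)
    (x : Fin d → ℤ) : Continuous (cubic B β J p q r x) := by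
  have h1 : cubic B β J p q r x = fun V : LinkZ d → G => -(Real.sqrt β ^ 3 *
      ∑ a, Y16.YM.cv (ld B) (cf V) p J x a * Y16.YM.qd (ld B)
        (Y16.YM.cv (ld B) (cf V) q [] x) (Y16.YM.cv (ld B) (cf V) r [] x) a) :=
    funext fun V => cubic_eq B β J p q r x V
  rw [h1]
  exact (continuous_const.mul (continuous_finsetSum _ fun a _ => (cv_cont B p J x a).mul
    (Y16.YM.qd_cont (fun b => cv_cont B q [] x b) (fun b => cv_cont B r [] x b) a))).neg

end coordinates

/-- **The first non Gaussian order of lattice Yang-Mills theory.** -/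
theorem main {N n d : ℕ} (hd : 3 ≤ d) (G : Subgroup (UU N)) (hG : IsClosed (G : Set (UU N)))
    [MeasurableSpace G] [BorelSpace G] (μ : Measure G) [IsProbabilityMeasure μ] [μ.IsHaarMeasure]
    (B : LieBasis G n) :
    (∀ (J : List (Fin d)) (p q r : Fin d × Fin d), J.Pairwise (· ≤ ·) → 3 ≤ J.length →
      q.1 ≠ q.2 → r.1 ≠ r.2 →
      (∀ (β : ℝ) (x : Fin d → ℤ) (γ : (Fin d → ℤ) → G) (V : LinkZ d → G),
        cubic B β J p q r x (gauge γ V) = cubic B β J p q r x V) ∧
      Summable (threeGluonStep J p q r) ∧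
      ∀ ε : ℝ, 0 < ε → ∃ β₀ : ℝ, ∀ β : ℝ, β₀ ≤ β →
        (∀ (l : ℕ) [NeZero l], Even l → β ≤ l →
          |Real.sqrt β * expect l μ β (cubic B β J p q r 0) -
            structureSum B * threeGluon J p q r| ≤ ε) ∧
        (∀ ν : Measure (LinkZ d → G), IsInfVol μ β ν →
          |Real.sqrt β * ∫ V, cubic B β J p q r 0 V ∂ν -
            structureSum B * threeGluon J p q r| ≤ ε) ∧
        ∃ ν : Measure (LinkZ d → G), IsInfVol μ β ν) ∧
    ((∃ a b, B.X a * B.X b ≠ B.X b * B.X a) → 0 < structureSum B ∧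
      ∀ m : ℕ, ∃ (J : List (Fin d)) (p q r : Fin d × Fin d), J.Pairwise (· ≤ ·) ∧
        m ≤ J.length ∧ 3 ≤ J.length ∧ p.1 ≠ p.2 ∧ q.1 ≠ q.2 ∧ r.1 ≠ r.2 ∧
        threeGluon J p q r ≠ 0) := by
  have : CompactSpace G := by
    have h1 : IsCompact (G : Set (UU N)) := hG.isCompact
    exact isCompact_iff_compactSpace.1 h1
  have h00 : SecondCountableTopology (UU N) := TopologicalSpace.Subtype.secondCountableTopology _
  have : SecondCountableTopology G := TopologicalSpace.Subtype.secondCountableTopology _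
  have := right_inv μ
  have := inv_inv' μ
  obtain ⟨CT, hCT, htan⟩ := Pool.Agent.Y274.YMTan.tangent G hG B.X B.orth
    (fun a t => ⟨B.ex a t, B.ex_eq a t⟩) B.full
  have hTg : Y16.YM.Tg (ld B) CT := ⟨hCT.le, htan⟩
  have hW := W778.SCH.W1.t_W1 W933.SCH.t_ISS
  refine ⟨fun J p q r hs hJ hq hr => ⟨fun β x γ V => gauge_inv B β J p q r x γ V, ?_,
    fun ε hε => ?_⟩, ?_⟩
  · have h1 := Y16.YM.three_summable hd hJ p q r
    exact h1.congr fun t => (step_eq J p q r t).symm
  · have hlim := Y16.YM.ob_lim μ hTg hd SCH.a_B2 SCH.a_TR hW SCH.a_HAF hq hr p J hJ hs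
    have h1 := (Metric.tendsto_nhds.1 hlim) ε hε
    rw [Y16.YM.FB_ev] at h1
    obtain ⟨b₀, h1⟩ := h1
    refine ⟨max (b₀ ^ 4) 1, fun β hβ => ?_⟩
    have hβ1 : 1 ≤ β := (le_max_right _ _).trans hβ
    have hβ0 : 0 ≤ β := by linarith
    obtain ⟨b, hb⟩ : ∃ b : ℝ, b = Real.sqrt (Real.sqrt β) := ⟨_, rfl⟩
    have hb0 : 0 ≤ b := by rw [hb]; exact Real.sqrt_nonneg _
    have hb2 : b ^ 2 = Real.sqrt β := by rw [hb]; exact Real.sq_sqrt (Real.sqrt_nonneg _)
    have hb4 : b ^ 4 = β := by
      calc b ^ 4 = (b ^ 2) ^ 2 := by ring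
        _ = β := by rw [hb2]; exact Real.sq_sqrt hβ0
    have hbb : b₀ ≤ b := by
      rcases le_or_gt b₀ 0 with h | h
      · linarith
      · have h2 : b₀ ^ 4 ≤ b ^ 4 := by rw [hb4]; exact (le_max_left _ _).trans hβ
        exact (pow_le_pow_iff_left₀ h.le hb0 (by norm_num)).1 h2
    have hfin : ∀ k : ℕ, β ≤ 2 * ((k : ℝ) + 1) →
        |Real.sqrt β * expect (2 * (k + 1)) μ β (cubic B β J p q r 0) -
          structureSum B * threeGluon J p q r| ≤ ε := by
      intro k hk
      have h2 := h1 b hbb k (by rw [hb4]; exact hk)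
      rw [Real.dist_eq] at h2
      have h3 : Real.sqrt β * expect (2 * (k + 1)) μ β (cubic B β J p q r 0) =
          -(b ^ 8 * Y16.YM.ee μ (ld B) (b, k) (Y16.YM.ob (ld B) J p q r)) := by
        rw [expect_eq μ B]
        unfold Y16.YM.ee
        simp only [hb4]
        have h4 : (fun U : YM.Ed d (2 * (k + 1)) → G => cubic B β J p q r 0 (YM.lf U)) =
            fun U => (-(Real.sqrt β ^ 3)) * Y16.YM.ob (ld B) J p q r (Y16.YM.uz U) := by
          funext U
          rw [cubic_zero B β, neg_mul]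
          rfl
        rw [h4, YM.EX_smul]
        have h5 : b ^ 8 = Real.sqrt β * Real.sqrt β ^ 3 := by rw [← hb2]; ring
        rw [h5]; ring
      rw [h3, structure_eq, three_eq]
      have h6 : -(b ^ 8 * Y16.YM.ee μ (ld B) (b, k) (Y16.YM.ob (ld B) J p q r)) -
          Y16.YM.cG (ld B) * -Y16.YM.three J p q r =
          -(b ^ 8 * Y16.YM.ee μ (ld B) (b, k) (Y16.YM.ob (ld B) J p q r) -
            Y16.YM.cG (ld B) * Y16.YM.three J p q r) := by ring
      rw [h6, abs_neg]
      exact h2.le
    have hfin' : ∀ (l : ℕ) [NeZero l], Even l → β ≤ l →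
        |Real.sqrt β * expect l μ β (cubic B β J p q r 0) -
          structureSum B * threeGluon J p q r| ≤ ε := by
      intro l hl0 hl hβl
      obtain ⟨m, rfl⟩ := even_iff_two_dvd.1 hl
      obtain ⟨k, rfl⟩ : ∃ k, m = k + 1 := by
        cases m with
        | zero => exact absurd rfl (NeZero.ne (2 * 0))
        | succ k => exact ⟨k, rfl⟩
      have h2 := hfin k (by push_cast at hβl; exact hβl)
      convert h2
    refine ⟨hfin', fun ν hν => ?_, exists_infVol μ B β⟩
    obtain ⟨sq, hsq, hl⟩ := hν.lim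
    have hc := hl (cubic B β J p q r 0) (cubic_cont B β J p q r 0)
    refine le_of_tendsto (((hc.const_mul (Real.sqrt β)).sub_const
      (structureSum B * threeGluon J p q r)).abs) ?_
    obtain ⟨M, hM⟩ := exists_nat_ge β
    filter_upwards [hsq.eventually_ge_atTop M] with j hj
    refine hfin (sq j) (hM.trans ?_)
    have : (M : ℝ) ≤ sq j := by exact_mod_cast hj
    have h0 : (0:ℝ) ≤ sq j := Nat.cast_nonneg _
    linarith
  · rintro ⟨a, b, hab⟩
    have hpos : 0 < Y16.YM.cG (ld B) := Y16.YM.cG_pos (L := ld B) (a := a) (b := b) hab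
    refine ⟨hpos, fun m => ?_⟩
    obtain ⟨J, p, hs, hm, hp, hne⟩ := Y16.YM.three_ne μ hTg hd SCH.a_B2 SCH.a_TR hW SCH.a_HAF
      hpos.ne' (i0 := ⟨0, by omega⟩) (i1 := ⟨1, by omega⟩) (i2 := ⟨2, by omega⟩)
      (by rw [Fin.mk_lt_mk]; omega) (by rw [Fin.mk_lt_mk]; omega) (max m 3)
    refine ⟨J, p, (⟨0, by omega⟩, ⟨1, by omega⟩), (⟨1, by omega⟩, ⟨2, by omega⟩), hs,
      (le_max_left _ _).trans hm, (le_max_right _ _).trans hm, hp, ?_, ?_, ?_⟩
    · simp
    · simp
    · rw [three_eq]
      exact neg_ne_zero.2 hne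


end

end Pool.Agent.Y16.Gluon
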